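import Mathlib
import Pool.Agent.Lib.H54T.Stmt
import Pool.Agent.Lib.H54T.XM

/-!
# Triangle-square-hexagon tilings with one class of squares
-/

namespace Pool.Agent.Results.MP_4253b7_co.OneSquareClass

open Pool.Agent.Lib.H54T

theorem result : ∀ t h : ℕ, 18 ≤ t → 4 ≤ h → h + 13 ≤ t → (t, 1, h) ∈ Sigma3 :=
  fun t h ht hh hth => main_one t h ht hh hth

end Pool.Agent.Results.MP_4253b7_co.OneSquareClass
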