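import Mathlib
import Pool.Agent.Lib.H54T.Stmt
import Pool.Agent.Lib.H54T.XM

/-!
# Triangle-square-hexagon tilings: all triples with t ≥ 18, s ≥ 2, h ≥ 3 are class counts
-/

namespace Pool.Agent.Results.MP_4253b7_co.ThresholdEighteen

open Pool.Agent.Lib.H54T

theorem result : ∀ t s h : ℕ, 18 ≤ t → 2 ≤ s → 3 ≤ h → (t, s, h) ∈ Sigma3 :=
  fun t s h ht hs hh => main_ge_two t s h ht hs hh

end Pool.Agent.Results.MP_4253b7_co.ThresholdEighteen
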